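import Pool.Agent.H743.SN.Quant3

/-!
# Simultaneous non-vanishing of quadratic twists: the newforms of levels 17 and 21 and all their twists

`f` and `g` are the newforms of weight `2` and levels `17` and `21` (attached to the elliptic curves `X_0(17)`
and `X_0(21)`; they span `S_2(Γ_0(17))` and `S_2(Γ_0(21))`); `L(f ⊗ ψ, s)` is analytically normalised
(centre `1/2`), `ψ` a primitive Dirichlet character; `χψ` is the primitive character inducing the
product.

(0) For every primitive `ψ` the `L`-functions exist and are unique (an entire function with the Dirichlet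
series `∑ a(n) ψ(n) n^(-(s + 1/2))`).
(1) **Level 17 and all its twists: the question is settled for every `χ`.**  For every `η`, quadratic or
trivial (so for the infinitely many newforms `f ⊗ η`), and every quadratic character `χ`: a quadratic
character `ψ` with `L(f ⊗ ηψ, 1/2) L(f ⊗ ηχψ, 1/2) ≠ 0` exists if and only if not (`χ(-1) = -1` and
`χ(17) = 1`).  If it exists then both root numbers are `1` for a positive proportion of the quadratic
characters `ψ` (ordered by the conductor), and among these `ψ` the lower density of those with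
`L(f ⊗ ηψ, 1/2) L(f ⊗ ηχψ, 1/2) ≠ 0` is at least `c² = 0.175...`,
`c = (1 - 1/2) (1 - 1/8) (1 - 1/32) ⋯ = 0.4194...`.  (The `only if` is the well known obstruction by the
root numbers; everything else is new.)
(2) **Level 21 and all its twists: every EVEN `χ`.**  For every `η`, quadratic or trivial, and every quadratic
character `χ` with `χ(-1) = 1`: for a positive proportion of the quadratic characters `ψ` the characters
`ηψ` and `ηχψ` are in an explicit class (`InClass21`: odd, `3` does not split, `7` is not inert), and among these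
`ψ` the lower density of those with `L(g ⊗ ηψ, 1/2) L(g ⊗ ηχψ, 1/2) ≠ 0` is at least `η₀² = 0.083...`,
`η₀ = (1 - 1/2) (1 - 1/4) (1 - 1/8) ⋯ = 0.2887...`.
(3) **Any number of factors, and both newforms at the same time.**  For all primitive `χ_1, …, χ_n`,
`χ'_1, …, χ'_n'` with square `1`: if there is one `ψ₀` (quadratic or trivial) for which the root numbers of all
the `f ⊗ χ_i ψ₀` are `1` and all the `χ'_j ψ₀` are in the class for the level 21, then the set `R` of the quadratic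
characters `ψ` with the same properties has positive proportion, and the lower density of
`∏ L(f ⊗ χ_i ψ, 1/2) ∏ L(g ⊗ χ'_j ψ, 1/2) ≠ 0` in `R` is at least `c^n η₀^n'`.  For `f` the condition is
necessary: if the root number of `f ⊗ ξ` is not `1` then `L(f ⊗ ξ, 1/2) = 0`.

Proof.  The L-values of the twists of `X_0(17)` and their parity: `Pool/Agent/H743/X17` (from library modules
of the run 63374d34); those of the twists of `X_0(21)`: `Pool/Agent/H114/X21` (helper114); the joint law of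
the criteria for several twists: `Pool/Agent/H743/JL` (new).
-/

set_option autoImplicit false

open UpperHalfPlane MatrixGroups CongruenceSubgroup

namespace Pool.Agent.Results.MP_d17ed7_nt.SimultaneousNonvanishing

/-! ### the newforms -/

/-- the cusp forms of weight `2` and level `N` -/
abbrev S2 (N : ℕ) : Type := CuspForm (Gamma0 N : Subgroup (GL (Fin 2) ℝ)) 2

/-- the Fourier coefficients -/
noncomputable def a {N : ℕ} (f : S2 N) (n : ℕ) : ℂ := (qExpansion 1 f).coeff n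

/-- the affine equation of `X_0(N)`, `N = 17, 21` (minimal equations, curves 17a1 and 21a1) -/
def OnCurve (N : ℕ) {R : Type} [CommRing R] (x y : R) : Prop :=
  if N = 17 then y ^ 2 + x * y + y = x ^ 3 - x ^ 2 - x - 14 else y ^ 2 + x * y = x ^ 3 - 4 * x - 1

/-- `f` is the newform of weight `2` and level `N`, `N = 17, 21`: a normalised eigenform which spans
`S_2(Γ_0(N))`; its coefficients are integers and it is attached to `X_0(N)` -/
structure Newform (N : ℕ) (f : S2 N) : Prop where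
  one : a f 1 = 1
  span : ∀ g : S2 N, ∃ c : ℂ, g = c • f
  int : ∀ n : ℕ, ∃ k : ℤ, a f n = k
  mul : ∀ m n : ℕ, m.Coprime n → a f (m * n) = a f m * a f n
  pow : ∀ p j : ℕ, p.Prime → a f (p ^ (j + 2)) =
    a f p * a f (p ^ (j + 1)) - (if p ∣ N then 0 else (p : ℂ)) * a f (p ^ j)
  curve : ∀ p : ℕ, p.Prime → a f p = (p : ℂ) -
    (Nat.card {P : ZMod p × ZMod p // OnCurve N P.1 P.2} : ℂ)

/-! ### the characters and the L-functions -/

/-- a quadratic character: a primitive Dirichlet character of order exactly two -/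
def IsQuad {q : ℕ} (ψ : DirichletCharacter ℂ q) : Prop := ψ.IsPrimitive ∧ orderOf ψ = 2

/-- a primitive Dirichlet character with `ψ² = 1`: quadratic or trivial -/
def IsQuadOrTriv {q : ℕ} (ψ : DirichletCharacter ℂ q) : Prop := ψ.IsPrimitive ∧ ψ ^ 2 = 1

/-- `Λ` is the function `s ↦ L(f ⊗ ψ, s)` in the analytic normalisation, `ψ` primitive (the levels `17` and
`21` are squarefree and so these are the standard `L`-functions) -/
def IsL {N : ℕ} (f : S2 N) {q : ℕ} (ψ : DirichletCharacter ℂ q) (Λ : ℂ → ℂ) : Prop :=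
  Differentiable ℂ Λ ∧ ∀ s : ℂ, 1 < s.re →
    HasSum (fun n : ℕ => a f n * ψ n * (n : ℂ) ^ (-(s + 1 / 2))) (Λ s)

/-- `L(f ⊗ ψ, 1/2) ≠ 0` -/
def NonVanishing {N : ℕ} (f : S2 N) {q : ℕ} (ψ : DirichletCharacter ℂ q) : Prop :=
  ∃ Λ : ℂ → ℂ, IsL f ψ Λ ∧ Λ (1 / 2) ≠ 0

/-- level `17`: the root number of `f ⊗ ψ` is `1` (`ψ` quadratic or trivial) -/
def RootOne {q : ℕ} (ψ : DirichletCharacter ℂ q) : Prop :=
  (ψ (-1) = 1 ∧ ψ 17 = 1) ∨ (ψ (-1) = -1 ∧ ψ 17 ≠ 1)

/-- the class for the level `21`: the quadratic character `ψ` is odd, `3` does not split and `7` is not inert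
in its field (the root number of `g ⊗ ψ` is `1` for these `ψ`) -/
def InClass21 {q : ℕ} (ψ : DirichletCharacter ℂ q) : Prop := ψ (-1) = -1 ∧ ψ 3 ≠ 1 ∧ ψ 7 ≠ -1

/-- the number of the quadratic characters of conductor at most `X` with the property `P` -/
noncomputable def num (P : ∀ q : ℕ, DirichletCharacter ℂ q → Prop) (X : ℕ) : ℕ :=
  Set.ncard {p : Σ q : ℕ, DirichletCharacter ℂ q | 1 ≤ p.1 ∧ p.1 ≤ X ∧ IsQuad p.2 ∧ P p.1 p.2}

/-- `R` holds for a positive proportion of the quadratic characters, ordered by the conductor (there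
are at most `2 X` of them of conductor `≤ X`, see (0) of the theorem), and the lower density of `P` in the set
of the quadratic characters with the property `R` is at least `κ` -/
def Often (R P : ∀ q : ℕ, DirichletCharacter ℂ q → Prop) (κ : ℝ) : Prop :=
  (∃ (δ : ℝ) (X₀ : ℕ), 0 < δ ∧ ∀ X : ℕ, X₀ ≤ X → δ * X ≤ (num R X : ℝ)) ∧
  ∀ ε : ℝ, 0 < ε → ∃ X₀ : ℕ, ∀ X : ℕ, X₀ ≤ X →
    (κ - ε) * (num R X : ℝ) ≤ (num (fun q ψ => R q ψ ∧ P q ψ) X : ℝ)

/-- the constant `(1 - 1/2) (1 - 1/8) (1 - 1/32) ⋯ = 0.4194...` -/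
noncomputable def c : ℝ := ∏' i : ℕ, (1 - (1 / 2 : ℝ) ^ (2 * i + 1))

/-- the constant `(1 - 1/2) (1 - 1/4) (1 - 1/8) ⋯ = 0.2887...` -/
noncomputable def η₀ : ℝ := ∏' i : ℕ, (1 - (1 / 2 : ℝ) ^ (i + 1))

section proof

open Pool.Agent.N809.M17 (f17 eigen17 f17_ne)
open Pool.Agent.N402.MF21 (f21 eigen21)
open Pool.Agent.N974.Gen (cf cf_int cf_mul cf_pow cf_one cf_prime E17 E21 Eigen)
open Pool.Agent.W97.MT (ap)
open Pool.Agent.H743.SN
open Pool.Agent.H743.X17 (DD Rt)
open Pool.Agent.H743.JL (tw)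

lemma newform_of {N : ℕ} [NeZero N] {f : S2 N} {E : WeierstrassCurve ℤ}
    (h : Eigen f (fun p => ap E p)) (hs : ∀ g : S2 N, ∃ c : ℂ, g = c • f)
    (hE : ∀ (p : ℕ) (P : ZMod p × ZMod p),
      (E.map (Int.castRingHom (ZMod p))).toAffine.Equation P.1 P.2 ↔ OnCurve N P.1 P.2) :
    Newform N f where
  one := cf_one h
  span := hs
  int := cf_int h
  mul := cf_mul h
  pow := by
    intro p j hp
    have h1 := cf_pow h p j hp
    show cf f (p ^ (j + 2)) = cf f p * cf f (p ^ (j + 1)) -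
      (if p ∣ N then 0 else (p : ℂ)) * cf f (p ^ j)
    rw [h1]
    by_cases hN : p ∣ N
    · rw [if_pos hN, if_pos hN, zero_mul]
    · rw [if_neg hN, if_neg hN]
  curve := by
    intro p hp
    have h1 := cf_prime h p hp
    show cf f p = _
    rw [h1]
    unfold Pool.Agent.W97.MT.ap Pool.Agent.W97.MT.affCount
    have e : Nat.card {P : ZMod p × ZMod p //
        (E.map (Int.castRingHom (ZMod p))).toAffine.Equation P.1 P.2} =
        Nat.card {P : ZMod p × ZMod p // OnCurve N P.1 P.2} :=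
      Nat.card_congr (Equiv.subtypeEquivRight fun P => hE p P)
    rw [e]
    push_cast
    rfl

lemma newform17 : Newform 17 f17 := by
  refine newform_of eigen17 (fun g => ?_) fun p P => ?_
  · obtain ⟨z, hz⟩ := f17_ne
    obtain ⟨c, hc⟩ := Pool.Agent.N402.Dim.dim17 f17 g hz
    exact ⟨c, by
      ext w
      simpa using hc w⟩
  · rw [WeierstrassCurve.Affine.equation_iff]
    unfold OnCurve
    rw [if_pos rfl]
    simp only [WeierstrassCurve.map_a₁, WeierstrassCurve.map_a₂, WeierstrassCurve.map_a₃,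
      WeierstrassCurve.map_a₄, WeierstrassCurve.map_a₆, E17]
    simp only [Int.coe_castRingHom, Int.cast_one, Int.cast_neg, Int.cast_ofNat]
    constructor <;> intro h1 <;> linear_combination h1

lemma newform21 : Newform 21 f21 := by
  refine newform_of eigen21 (fun g => ?_) fun p P => ?_
  · obtain ⟨z, hz⟩ := f21_ne
    obtain ⟨c, hc⟩ := Pool.Agent.N402.Dim.dim21 f21 g hz
    exact ⟨c, by
      ext w
      simpa using hc w⟩
  · rw [WeierstrassCurve.Affine.equation_iff]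
    unfold OnCurve
    rw [if_neg (by norm_num)]
    simp only [WeierstrassCurve.map_a₁, WeierstrassCurve.map_a₂, WeierstrassCurve.map_a₃,
      WeierstrassCurve.map_a₄, WeierstrassCurve.map_a₆, E21]
    simp only [Int.coe_castRingHom, Int.cast_one, Int.cast_neg, Int.cast_ofNat, Int.cast_zero]
    constructor <;> intro h1 <;> linear_combination h1

lemma val17 {q : ℕ} [NeZero q] {ψ : DirichletCharacter ℂ q} {m : ℤ} (h : Of ψ m) :
    ψ 17 = (jacobiSym m 17 : ℂ) := by
  have := val_odd h (by norm_num : Nat.Prime 17) (by norm_num)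
  exact_mod_cast this

lemma rootOne_iff {q : ℕ} [NeZero q] {ψ : DirichletCharacter ℂ q} {m : ℤ}
    (h : Of ψ m) : RootOne ψ ↔ Rt m := by
  have hm := h.1.ne_zero
  have h1 := neg_iff h
  have h2 : ψ (-1) = 1 ↔ ¬ m < 0 := by
    rw [← h1]
    rcases ψ.even_or_odd with h3 | h3
    · have h4 : ψ (-1) = 1 := h3
      rw [h4]
      norm_num
    · have h4 : ψ (-1) = -1 := h3
      rw [h4]
      norm_num
  have h3 : ψ 17 = 1 ↔ jacobiSym m 17 = 1 := by
    rw [val17 h]
    exact_mod_cast Iff.rfl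
  unfold RootOne Rt
  rw [h1, h2, ne_eq, h3]
  have h4 : ¬ m < 0 ↔ 0 < m := by omega
  rw [h4]

/-- root number `-1` forces the vanishing -/
lemma root_of {q : ℕ} [NeZero q] {ψ : DirichletCharacter ℂ q} (h : IsQuadOrTriv ψ)
    (hN : NonVanishing f17 ψ) : RootOne ψ := by
  obtain ⟨m, hm⟩ := cls h.1 h.2
  exact (rootOne_iff hm).2 (nv_rt hm hN)

/-- the criterion for `χ` -/
lemma crit {k : ℕ} [NeZero k] {χ : DirichletCharacter ℂ k} {t : ℤ} (ht : Of χ t) :
    (χ (-1) = -1 ∧ χ 17 = 1) ↔ (t < 0 ∧ jacobiSym t 17 = 1) := by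
  rw [neg_iff ht, val17 ht]
  exact and_congr_right fun _ => by exact_mod_cast Iff.rfl

lemma pos_of_even {k : ℕ} [NeZero k] {χ : DirichletCharacter ℂ k} {t : ℤ} (ht : Of χ t)
    (h : χ (-1) = 1) : 0 < t := by
  have h1 := neg_iff ht
  rw [h] at h1
  have h2 : ¬ t < 0 := fun h3 => by
    have := h1.2 h3
    norm_num at this
  have h3 := ht.1.ne_zero
  omega

lemma c_pos : (0 : ℝ) < c := by
  have : (0.4194 : ℝ) < c := Pool.Agent.H743.X17.c2_bounds.1
  linarith

/-- the existence -/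
lemma exists_of {R P : ∀ q : ℕ, DirichletCharacter ℂ q → Prop} {κ : ℝ} (hκ : 0 < κ)
    (h : Often R P κ) : ∃ (q : ℕ) (_ : NeZero q) (ψ : DirichletCharacter ℂ q), IsQuad ψ ∧ P q ψ := by
  obtain ⟨⟨δ, X₀, hδ, h1⟩, h2⟩ := h
  obtain ⟨X₁, h3⟩ := h2 (κ / 2) (by positivity)
  obtain ⟨X, hX⟩ : ∃ X : ℕ, X = max (max X₀ X₁) 1 := ⟨_, rfl⟩
  have a0 : X₀ ≤ X := by omega
  have a1 : X₁ ≤ X := by omega
  have a2 : (1 : ℝ) ≤ X := by
    have : 1 ≤ X := by omega
    exact_mod_cast this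
  have b1 := h1 X a0
  have b2 := h3 X a1
  have b3 : (0 : ℝ) < (num (fun q ψ => R q ψ ∧ P q ψ) X : ℝ) := by
    have b4 : 0 < δ * X := by positivity
    have b5 : 0 < (κ - κ / 2) * (num R X : ℝ) := mul_pos (by linarith) (by linarith)
    linarith
  have b4 : num (fun q ψ => R q ψ ∧ P q ψ) X ≠ 0 := by
    intro h
    rw [h] at b3
    norm_num at b3
  obtain ⟨⟨q, ψ⟩, h4, -, h5, h6⟩ := Set.nonempty_of_ncard_ne_zero b4
  have h4' : 1 ≤ q := h4
  exact ⟨q, ⟨by omega⟩, ψ, h5, h6.2⟩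

end proof

theorem result : ∃ (f : S2 17) (g : S2 21), Newform 17 f ∧ Newform 21 g ∧
    -- (0) the L-functions exist, are unique, and the number of the quadratic characters
    (∀ (q : ℕ) [NeZero q] (ψ : DirichletCharacter ℂ q), ψ.IsPrimitive →
      (∃! Λ : ℂ → ℂ, IsL f ψ Λ) ∧ ∃! Λ : ℂ → ℂ, IsL g ψ Λ) ∧
    (∀ X : ℕ, num (fun _ _ => True) X ≤ 2 * X) ∧
    -- (1) level 17: the newforms `f ⊗ η`, every `χ`
    (∀ (e k : ℕ) [NeZero e] [NeZero k] (η : DirichletCharacter ℂ e) (χ : DirichletCharacter ℂ k),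
      IsQuadOrTriv η → IsQuad χ →
      ((∃ (q : ℕ) (_ : NeZero q) (ψ : DirichletCharacter ℂ q), IsQuad ψ ∧
          NonVanishing f (η.primitive_mul ψ) ∧
          NonVanishing f (η.primitive_mul (χ.primitive_mul ψ))) ↔
        ¬ (χ (-1) = -1 ∧ χ 17 = 1)) ∧
      (¬ (χ (-1) = -1 ∧ χ 17 = 1) →
        Often (fun _ ψ => RootOne (η.primitive_mul ψ) ∧
            RootOne (η.primitive_mul (χ.primitive_mul ψ)))
          (fun _ ψ => NonVanishing f (η.primitive_mul ψ) ∧
            NonVanishing f (η.primitive_mul (χ.primitive_mul ψ))) (c ^ 2))) ∧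
    -- (2) level 21: the newforms `g ⊗ η`, every even `χ`
    (∀ (e k : ℕ) [NeZero e] [NeZero k] (η : DirichletCharacter ℂ e) (χ : DirichletCharacter ℂ k),
      IsQuadOrTriv η → IsQuad χ → χ (-1) = 1 →
      (∃ (q : ℕ) (_ : NeZero q) (ψ : DirichletCharacter ℂ q), IsQuad ψ ∧
        NonVanishing g (η.primitive_mul ψ) ∧
        NonVanishing g (η.primitive_mul (χ.primitive_mul ψ))) ∧
      Often (fun _ ψ => InClass21 (η.primitive_mul ψ) ∧
          InClass21 (η.primitive_mul (χ.primitive_mul ψ)))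
        (fun _ ψ => NonVanishing g (η.primitive_mul ψ) ∧
          NonVanishing g (η.primitive_mul (χ.primitive_mul ψ))) (η₀ ^ 2)) ∧
    -- (3) any number of factors
    (∀ (q : ℕ) [NeZero q] (ξ : DirichletCharacter ℂ q), IsQuadOrTriv ξ → ¬ RootOne ξ →
      ∀ Λ : ℂ → ℂ, IsL f ξ Λ → Λ (1 / 2) = 0) ∧
    (∀ (n n' : ℕ) (k : Fin n → ℕ) (k' : Fin n' → ℕ) [∀ i, NeZero (k i)] [∀ i, NeZero (k' i)]
      (χ : ∀ i, DirichletCharacter ℂ (k i)) (χ' : ∀ i, DirichletCharacter ℂ (k' i)),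
      (∀ i, IsQuadOrTriv (χ i)) → (∀ i, IsQuadOrTriv (χ' i)) →
      (∃ (e : ℕ) (_ : NeZero e) (ψ₀ : DirichletCharacter ℂ e), IsQuadOrTriv ψ₀ ∧
        (∀ i, RootOne ((χ i).primitive_mul ψ₀)) ∧ ∀ i, InClass21 ((χ' i).primitive_mul ψ₀)) →
      Often (fun _ ψ => (∀ i, RootOne ((χ i).primitive_mul ψ)) ∧
          ∀ i, InClass21 ((χ' i).primitive_mul ψ))
        (fun _ ψ => (∀ i, NonVanishing f ((χ i).primitive_mul ψ)) ∧
          ∀ i, NonVanishing g ((χ' i).primitive_mul ψ)) (c ^ n * η₀ ^ n')) ∧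
    0.4194 < c ∧ c < 0.4195 ∧ 0.2887 < η₀ ∧ η₀ < 0.2889 := by
  refine ⟨Pool.Agent.N809.M17.f17, Pool.Agent.N402.MF21.f21, newform17, newform21, ?_,
    fun X => Pool.Agent.H743.SN.Cnt_le (fun _ _ => True) X, ?_, ?_, ?_, ?_,
    Pool.Agent.H743.X17.c2_bounds.1, Pool.Agent.H743.X17.c2_bounds.2,
    Pool.Agent.N916.GB.eta_bounds.1, Pool.Agent.N916.GB.eta_bounds.2⟩
  · intro q _ ψ hψ
    obtain ⟨Λ, h⟩ := Pool.Agent.H743.SN.exists_Lg Pool.Agent.N809.M17.eigen17 hψ
    obtain ⟨Λ', h'⟩ := Pool.Agent.H743.SN.exists_Lg Pool.Agent.N402.MF21.eigen21 hψ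
    exact ⟨⟨Λ, h, fun F hF => Pool.Agent.H743.SN.Lg_unique hF h⟩,
      ⟨Λ', h', fun F hF => Pool.Agent.H743.SN.Lg_unique hF h'⟩⟩
  · intro e k _ _ η χ hη hχ
    obtain ⟨s, hs⟩ := Pool.Agent.H743.SN.cls hη.1 hη.2
    obtain ⟨t, ht⟩ := Pool.Agent.H743.SN.cls hχ.1 (Pool.Agent.H743.SN.qd_sq hχ)
    have key : ¬ (χ (-1) = -1 ∧ χ 17 = 1) →
        Often (fun _ ψ => RootOne (η.primitive_mul ψ) ∧
            RootOne (η.primitive_mul (χ.primitive_mul ψ)))
          (fun _ ψ => NonVanishing Pool.Agent.N809.M17.f17 (η.primitive_mul ψ) ∧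
            NonVanishing Pool.Agent.N809.M17.f17 (η.primitive_mul (χ.primitive_mul ψ)))
          (c ^ 2) := fun h =>
      Pool.Agent.H743.SN.pair17 (fun _ ψ => RootOne ψ) (fun q _ ψ m hm => rootOne_iff hm) hη.2
        (Pool.Agent.H743.SN.qd_sq hχ) hs ht (by rwa [crit ht] at h)
    refine ⟨⟨?_, fun h => exists_of (pow_pos c_pos 2) (key h)⟩, key⟩
    rintro ⟨q, hq, ψ, hψ, h1, h2⟩ h
    obtain ⟨m, hm⟩ := Pool.Agent.H743.SN.cls hψ.1 (Pool.Agent.H743.SN.qd_sq hψ)
    have h3 := (crit ht).1 h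
    exact Pool.Agent.H743.SN.two_no hη.2 (Pool.Agent.H743.SN.qd_sq hχ)
      (Pool.Agent.H743.SN.qd_sq hψ) hs ht hm h3.1 h3.2 ⟨h1, h2⟩
  · intro e k _ _ η χ hη hχ h
    obtain ⟨s, hs⟩ := Pool.Agent.H743.SN.cls hη.1 hη.2
    obtain ⟨t, ht⟩ := Pool.Agent.H743.SN.cls hχ.1 (Pool.Agent.H743.SN.qd_sq hχ)
    have key : Often (fun _ ψ => InClass21 (η.primitive_mul ψ) ∧
          InClass21 (η.primitive_mul (χ.primitive_mul ψ)))
        (fun _ ψ => NonVanishing Pool.Agent.N402.MF21.f21 (η.primitive_mul ψ) ∧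
          NonVanishing Pool.Agent.N402.MF21.f21 (η.primitive_mul (χ.primitive_mul ψ)))
        (η₀ ^ 2) :=
      Pool.Agent.H743.SN.pair21 hη.2 (Pool.Agent.H743.SN.qd_sq hχ) hs ht (pos_of_even ht h)
    have h0 : (0 : ℝ) < η₀ := by
      have : (0.2887 : ℝ) < η₀ := Pool.Agent.N916.GB.eta_bounds.1
      linarith
    exact ⟨exists_of (pow_pos h0 2) key, key⟩
  · intro q _ ξ hξ hR Λ hL
    by_contra h0
    exact hR (root_of hξ ⟨Λ, hL, h0⟩)
  · intro n n' k k' _ _ χ χ' hχ hχ' h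
    obtain ⟨e, he, ψ₀, h1, h2, h3⟩ := h
    exact Pool.Agent.H743.SN.quant_chars2 (fun _ ψ => RootOne ψ)
      (fun q _ ψ m hm => rootOne_iff hm) χ hχ χ' hχ' ψ₀ h1.1 h1.2 h2 h3

end Pool.Agent.Results.MP_d17ed7_nt.SimultaneousNonvanishing
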